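import Pool.Agent.H12.KP.Targets4

/-!
# Charts given by a finitely generated module (row CHRING)
-/

namespace Pool.Agent.H98.KP

open Pool.Agent.H12.KP Polynomial TensorProduct

universe u v

section

variable {A : Type u} {L : Type u} [CommRing A] [Field L] [Algebra A L]

theorem chring_fg (B : Subalgebra A L) (τ : L) (M : Submodule A L) (hM : M.FG) (hτ : τ ∈ B)
    (hB : ∀ z, z ∈ B ↔ z ∈ Submodule.span A {z : L | ∃ i : ℕ, ∃ m ∈ M, z = τ ^ i * m}) :
    B.FG := by
  classical
  obtain ⟨S, hS⟩ := hM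
  have hMB : ∀ m ∈ M, m ∈ B := by
    intro m hm
    rw [hB]
    exact Submodule.subset_span ⟨0, m, hm, by simp⟩
  refine ⟨insert τ S, ?_⟩
  apply le_antisymm
  · rw [Algebra.adjoin_le_iff]
    intro x hx
    rw [Finset.coe_insert, Set.mem_insert_iff] at hx
    rcases hx with rfl | hx
    · exact hτ
    · apply hMB
      rw [← hS]
      exact Submodule.subset_span hx
  · intro z hz
    rw [hB] at hz
    have hle : Submodule.span A {z : L | ∃ i : ℕ, ∃ m ∈ M, z = τ ^ i * m} ≤
        Subalgebra.toSubmodule (Algebra.adjoin A ((insert τ S : Finset L) : Set L)) := by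
      rw [Submodule.span_le]
      rintro _ ⟨i, m, hm, rfl⟩
      have h1 : τ ∈ Algebra.adjoin A ((insert τ S : Finset L) : Set L) :=
        Algebra.subset_adjoin (by simp)
      have h2 : M ≤ Subalgebra.toSubmodule (Algebra.adjoin A ((insert τ S : Finset L) : Set L)) := by
        rw [← hS, Submodule.span_le]
        intro s hs
        exact Algebra.subset_adjoin (by simp [Finset.mem_coe.mp hs])
      have h3 : m ∈ Algebra.adjoin A ((insert τ S : Finset L) : Set L) := h2 hm
      have h4 : τ ^ i * m ∈ Algebra.adjoin A ((insert τ S : Finset L) : Set L) :=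
        mul_mem (pow_mem h1 i) h3
      exact h4
    exact hle hz

end

theorem pf_CHRING : S_CHRING.{u} := by
  intro A L _ _ _ _ T M d1 hT hM B0 B1 B01 hTB0 hTB1 hB0 hB1 hB01
  have hFG0 : B0.FG := chring_fg B0 T M hM hTB0 hB0
  set M' : Submodule A L := M.map (LinearMap.mulLeft A (T⁻¹ ^ d1)) with hM'
  have hM'FG : M'.FG := hM.map _
  have hset : {z : L | ∃ i : ℕ, ∃ m ∈ M, z = T⁻¹ ^ (i + d1) * m} =
      {z : L | ∃ i : ℕ, ∃ m ∈ M', z = T⁻¹ ^ i * m} := by
    ext z
    constructor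
    · rintro ⟨i, m, hm, rfl⟩
      refine ⟨i, T⁻¹ ^ d1 * m, ?_, ?_⟩
      · exact ⟨m, hm, rfl⟩
      · rw [pow_add, mul_assoc]
    · rintro ⟨i, _, ⟨m, hm, rfl⟩, rfl⟩
      refine ⟨i, m, hm, ?_⟩
      rw [LinearMap.mulLeft_apply, pow_add, mul_assoc]
  have hB1' : ∀ z, z ∈ B1 ↔ z ∈ Submodule.span A {z : L | ∃ i : ℕ, ∃ m ∈ M', z = T⁻¹ ^ i * m} := by
    intro z
    rw [hB1, hset]
  have hFG1 : B1.FG := chring_fg B1 T⁻¹ M' hM'FG hTB1 hB1'
  have hft0 : Algebra.FiniteType A B0 := (Subalgebra.fg_iff_finiteType B0).mp hFG0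
  have hft1 : Algebra.FiniteType A B1 := (Subalgebra.fg_iff_finiteType B1).mp hFG1
  refine ⟨Algebra.FiniteType.isNoetherianRing A B0, Algebra.FiniteType.isNoetherianRing A B1,
    hft0, hft1, ⟨M', hM'FG, ?_, ?_⟩, ?_⟩
  · intro m hm
    have : m ∈ B1 := by
      rw [hB1']
      exact Submodule.subset_span ⟨0, m, hm, by simp⟩
    exact this
  · intro z hz
    rw [hB1'] at hz
    induction hz using Submodule.span_induction with
    | mem x hx =>
      obtain ⟨i, m, hm, rfl⟩ := hx
      rcases i with _ | i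
      · exact ⟨m, hm, 0, zero_mem _, by simp⟩
      · refine ⟨0, zero_mem _, T⁻¹ ^ i * m, ?_, ?_⟩
        · rw [hB1']
          exact Submodule.subset_span ⟨i, m, hm, rfl⟩
        · rw [zero_add, ← mul_assoc, pow_succ']
    | zero => exact ⟨0, zero_mem _, 0, zero_mem _, by simp⟩
    | add x y _ _ hx hy =>
      obtain ⟨m, hm, c, hc, e1⟩ := hx
      obtain ⟨m', hm', c', hc', e2⟩ := hy
      refine ⟨m + m', add_mem hm hm', c + c', add_mem hc hc', ?_⟩
      rw [e1, e2]
      ring
    | smul a x _ hx =>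
      obtain ⟨m, hm, c, hc, e1⟩ := hx
      refine ⟨a • m, M'.smul_mem a hm, a • c, B1.smul_mem hc a, ?_⟩
      rw [e1, smul_add, mul_smul_comm]
  · intro N hN z hz
    rw [hB01] at hz
    induction hz using Submodule.span_induction with
    | mem x hx =>
      obtain ⟨i, m, hm, rfl⟩ := hx
      rcases le_or_gt 0 i with hi | hi
      · obtain ⟨j, rfl⟩ := Int.eq_ofNat_of_zero_le hi
        refine ⟨T ^ j * m, ?_, 0, zero_mem _, ?_⟩
        · rw [hB0]
          exact Submodule.subset_span ⟨j, m, hm, rfl⟩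
        · rw [mul_zero, add_zero, zpow_natCast]
      · obtain ⟨j, hj⟩ := Int.eq_ofNat_of_zero_le (by omega : 0 ≤ -i)
        have hi' : i = -(j : ℤ) := by omega
        refine ⟨0, zero_mem _, T⁻¹ ^ (N + j - d1 + d1) * m, ?_, ?_⟩
        · rw [hB1]
          exact Submodule.subset_span ⟨N + j - d1, m, hm, rfl⟩
        · have e1 : N + j - d1 + d1 = N + j := by omega
          rw [zero_add, e1, hi', zpow_neg, zpow_natCast, pow_add, inv_pow, inv_pow, ← mul_assoc,
            ← mul_assoc, mul_inv_cancel₀ (pow_ne_zero N hT), one_mul]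
    | zero => exact ⟨0, zero_mem _, 0, zero_mem _, by simp⟩
    | add x y _ _ hx hy =>
      obtain ⟨m, hm, c, hc, e1⟩ := hx
      obtain ⟨m', hm', c', hc', e2⟩ := hy
      refine ⟨m + m', add_mem hm hm', c + c', add_mem hc hc', ?_⟩
      rw [e1, e2]
      ring
    | smul a x _ hx =>
      obtain ⟨m, hm, c, hc, e1⟩ := hx
      refine ⟨a • m, B0.smul_mem hm a, a • c, B1.smul_mem hc a, ?_⟩
      rw [e1, smul_add, mul_smul_comm]

end Pool.Agent.H98.KP
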